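import Mathlib
import Pool.Agent.Helper578.OG.Generic

set_option autoImplicit false

/-! Oracle programs: computations between total functions. -/

namespace Pool.Agent.W932.UR

open Pool.Agent.Helper578.OG

/-- The oracle program `c` with the total function `x` as oracle computes the total function `y`. -/
def Computes (c : OCode) (x y : ℕ → ℕ) : Prop := ∀ n, y n ∈ c.eval (fun i => Part.some (x i)) n

/-- The pair of programs `e` witnesses that `x` and `y` are Turing equivalent. -/
def Via (e : OCode × OCode) (x y : ℕ → ℕ) : Prop := Computes e.1 x y ∧ Computes e.2 y x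

/-- The partial function given by a total one. -/
def tot (x : ℕ → ℕ) : ℕ →. ℕ := fun n => Part.some (x n)

theorem eval_rec (g : ℕ →. ℕ) (c : OCode) : Nat.RecursiveIn {g} (c.eval g) := by
  induction c with
  | zero => exact .zero
  | succ => exact .succ
  | left => exact .left
  | right => exact .right
  | oracle => exact .oracle g rfl
  | pair a b iha ihb => exact .pair iha ihb
  | comp a b iha ihb => exact .comp iha ihb
  | prec a b iha ihb => exact .prec iha ihb
  | rfind a iha => exact .rfind iha

theorem computes_iff {c : OCode} {x y : ℕ → ℕ} : Computes c x y ↔ c.eval (tot x) = tot y := by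
  constructor
  · intro h
    funext n
    exact (Part.eq_some_iff.2 (h n))
  · intro h n
    show y n ∈ c.eval (tot x) n
    rw [h]
    exact Part.mem_some _

theorem red_iff {x y : ℕ → ℕ} : (∃ c, Computes c x y) ↔ TuringReducible (tot y) (tot x) := by
  constructor
  · rintro ⟨c, hc⟩
    rw [computes_iff] at hc
    have h : Nat.RecursiveIn {tot x} (tot y) := by
      rw [← hc]
      exact eval_rec _ _
    exact RecursiveIn.iff_nat.2 h
  · intro h
    obtain ⟨c, hc⟩ := exists_code (RecursiveIn.iff_nat.1 h)
    exact ⟨c, computes_iff.2 hc⟩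

theorem via_iff {x y : ℕ → ℕ} : (∃ e, Via e x y) ↔ TuringEquivalent (tot x) (tot y) := by
  constructor
  · rintro ⟨e, h1, h2⟩
    exact ⟨red_iff.1 ⟨_, h2⟩, red_iff.1 ⟨_, h1⟩⟩
  · rintro ⟨h1, h2⟩
    obtain ⟨c, hc⟩ := red_iff.2 h1
    obtain ⟨d, hd⟩ := red_iff.2 h2
    exact ⟨(d, c), hd, hc⟩

theorem Computes.unique {c : OCode} {x y z : ℕ → ℕ} (h1 : Computes c x y) (h2 : Computes c x z) :
    y = z := funext fun n => Part.mem_unique (h1 n) (h2 n)

/-- Partial recursive functions have codes that do not depend on the oracle. -/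
theorem exists_code_partrec {f : ℕ →. ℕ} (h : Nat.Partrec f) :
    ∃ c : OCode, ∀ g : ℕ →. ℕ, c.eval g = f := by
  induction h with
  | zero => exact ⟨.zero, fun _ => rfl⟩
  | succ => exact ⟨.succ, fun _ => rfl⟩
  | left => exact ⟨.left, fun _ => rfl⟩
  | right => exact ⟨.right, fun _ => rfl⟩
  | pair _ _ ih1 ih2 =>
    obtain ⟨a, ha⟩ := ih1; obtain ⟨b, hb⟩ := ih2
    exact ⟨.pair a b, fun g => by simp only [OCode.eval, ha, hb]⟩
  | comp _ _ ih1 ih2 =>
    obtain ⟨a, ha⟩ := ih1; obtain ⟨b, hb⟩ := ih2
    refine ⟨.comp a b, fun g => ?_⟩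
    simp only [OCode.eval, ha, hb]; rfl
  | prec _ _ ih1 ih2 =>
    obtain ⟨a, ha⟩ := ih1; obtain ⟨b, hb⟩ := ih2
    refine ⟨.prec a b, fun g => ?_⟩
    simp only [OCode.eval, ha, hb]; rfl
  | rfind _ ih1 =>
    obtain ⟨a, ha⟩ := ih1
    refine ⟨.rfind a, fun g => ?_⟩
    simp only [OCode.eval, ha]; rfl

/-- replace the first values by the values of a list -/
def patch (L : List ℕ) (x : ℕ → ℕ) (n : ℕ) : ℕ := if n < L.length then L.getD n 0 else x n

/-- Replacing a fixed initial segment is done by one program. -/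
theorem exists_patch (L : List ℕ) : ∃ c : OCode, ∀ x : ℕ → ℕ, Computes c x (patch L x) := by
  have h1 : Computable (fun p : ℕ => if p.unpair.1 < L.length then L.getD p.unpair.1 0
      else p.unpair.2) := by
    have hp : Primrec (fun p : ℕ => if p.unpair.1 < L.length then L.getD p.unpair.1 0
      else p.unpair.2) := by
      refine Primrec.ite ?_ ?_ ?_
      · exact Primrec.nat_lt.comp (Primrec.fst.comp Primrec.unpair) (Primrec.const _)
      · exact (Primrec.list_getD 0).comp (Primrec.const L) (Primrec.fst.comp Primrec.unpair)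
      · exact Primrec.snd.comp Primrec.unpair
    exact hp.to_comp
  obtain ⟨c1, hc1⟩ := exists_code_partrec (Partrec.nat_iff.1 h1.partrec)
  have h2 : Computable (fun p : ℕ => p) := Computable.id
  obtain ⟨c2, hc2⟩ := exists_code_partrec (Partrec.nat_iff.1 h2.partrec)
  refine ⟨.comp c1 (.pair c2 .oracle), fun x n => ?_⟩
  have e1 : (OCode.pair c2 .oracle).eval (fun i => Part.some (x i)) n
      = Part.some (Nat.pair n (x n)) := by
    simp only [OCode.eval, hc2, Seq.seq, Part.map_eq_map, PFun.coe_val, Part.map_some,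
      Part.bind_some]
  show _ ∈ ((OCode.pair c2 .oracle).eval (fun i => Part.some (x i)) n).bind (c1.eval _)
  rw [e1, Part.bind_some, hc1, PFun.coe_val, Part.mem_some_iff, Nat.unpair_pair]
  rfl

end Pool.Agent.W932.UR
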