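import Pool.Agent.W932.UR.Rigid

set_option autoImplicit false

/-! A representable function on the Turing degrees without a uniform representation that has the
property of Baire. -/

namespace Pool.Agent.W932.UR

open Topology Filter Set
open Pool.Agent.Helper578.OG

/-! ### The two-block code -/

/-- the sequence `w(2n+1) + w(2n) w(2n+2)` modulo 2 -/
def psi (w : ℕ → Bool) (n : ℕ) : ℕ := (xor (w (2 * n + 1)) (w (2 * n) && w (2 * n + 2))).toNat

theorem psi_continuous : Continuous psi := by
  refine continuous_pi fun n => continuous_of_use _ fun s => ⟨2 * n + 3, fun s' hs' => ?_⟩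
  show (xor _ _).toNat = (xor _ _).toNat
  rw [hs' (2 * n + 1) (by omega), hs' (2 * n) (by omega), hs' (2 * n + 2) (by omega)]

theorem eq_patch {x y : ℕ → ℕ} (N : ℕ) (h : ∀ k, N ≤ k → x k = y k) :
    y = patch ((List.range N).map y) x := by
  funext k
  unfold patch
  by_cases hk : k < N
  · rw [if_pos (by simpa using hk), List.getD_eq_getElem?_getD]
    simp [hk]
  · rw [if_neg (by simpa using hk), h k (not_lt.1 hk)]

theorem equiv_of_eventually {x y : ℕ → ℕ} (N : ℕ) (h : ∀ k, N ≤ k → x k = y k) :
    TuringEquivalent (tot x) (tot y) := by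
  rw [← via_iff]
  obtain ⟨c, hc⟩ := exists_patch ((List.range N).map y)
  obtain ⟨d, hd⟩ := exists_patch ((List.range N).map x)
  refine ⟨(c, d), ?_, ?_⟩
  · have := hc x
    rwa [← eq_patch N h] at this
  · have := hd y
    rwa [← eq_patch N fun k hk => (h k hk).symm] at this

theorem psi_equiv {w w' : ℕ → Bool} (N : ℕ) (h : ∀ k, N ≤ k → w k = w' k) :
    TuringEquivalent (tot (psi w)) (tot (psi w')) := by
  refine equiv_of_eventually N fun k hk => ?_
  show (xor _ _).toNat = (xor _ _).toNat
  rw [h (2 * k + 1) (by omega), h (2 * k) (by omega), h (2 * k + 2) (by omega)]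

theorem psi_equiv_of_phi {d : ℕ → ℕ} {w w' : ℕ → Bool}
    (h : TuringEquivalent (tot (phi d w)) (tot (phi d w'))) :
    TuringEquivalent (tot (psi w)) (tot (psi w')) := by
  obtain ⟨e, he, _⟩ := via_iff.2 h
  exact psi_equiv (Encodable.encode e.1) (phi_rigid he)

/-! ### Borel measurability -/

theorem isOpen_eval (c : OCode) (n v : ℕ) :
    IsOpen {x : ℕ → ℕ | v ∈ c.eval (fun i => Part.some (x i)) n} := by
  rw [isOpen_iff_mem_nhds]
  intro x hx
  obtain ⟨m, hm⟩ := eval_use (show v ∈ c.eval (fun i => Part.some (x i)) n from hx)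
  filter_upwards [(isOpen_agree x m).mem_nhds (fun j _ => rfl)] with x' hx'
  refine eval_mono_ext ?_ (hm m le_rfl)
  have : seg x m = seg x' m := by
    unfold seg
    apply List.map_congr_left
    intro j hj
    exact (hx' j (List.mem_range.1 hj)).symm
  rw [this]
  exact seg_ext x' m

theorem measurable_computes (c : OCode) {α : Type} [MeasurableSpace α] {f g : α → (ℕ → ℕ)}
    (hf : Measurable f) (hg : Measurable g) : MeasurableSet {a | Computes c (f a) (g a)} := by
  have : {a | Computes c (f a) (g a)} = ⋂ n, ⋃ v, ((fun a => g a n) ⁻¹' {v} ∩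
      f ⁻¹' {x : ℕ → ℕ | v ∈ c.eval (fun i => Part.some (x i)) n}) := by
    ext a
    simp [Computes]
  rw [this]
  refine MeasurableSet.iInter fun n => MeasurableSet.iUnion fun v => MeasurableSet.inter ?_ ?_
  · exact (measurable_pi_apply n |>.comp hg) (measurableSet_singleton v)
  · exact hf (isOpen_eval c n v).measurableSet

open Classical in
/-- the function computed by `c` with oracle `x`, with value `0` where it is undefined -/
noncomputable def val (c : OCode) (x : ℕ → ℕ) (n : ℕ) : ℕ :=
  if h : ∃ v, v ∈ c.eval (fun i => Part.some (x i)) n then h.choose else 0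

theorem val_eq {c : OCode} {x y : ℕ → ℕ} (h : Computes c x y) : val c x = y := by
  funext n
  have h1 : ∃ v, v ∈ c.eval (fun i => Part.some (x i)) n := ⟨_, h n⟩
  unfold val
  rw [dif_pos h1]
  exact Part.mem_unique h1.choose_spec (h n)

theorem val_iff {c : OCode} {x : ℕ → ℕ} {n v : ℕ} :
    val c x n = v ↔ v ∈ c.eval (fun i => Part.some (x i)) n ∨
      (v = 0 ∧ ∀ u, u ∉ c.eval (fun i => Part.some (x i)) n) := by
  unfold val
  by_cases h : ∃ v, v ∈ c.eval (fun i => Part.some (x i)) n
  · rw [dif_pos h]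
    constructor
    · rintro rfl; exact Or.inl h.choose_spec
    · rintro (h1 | ⟨_, h1⟩)
      · exact Part.mem_unique h.choose_spec h1
      · exact absurd h.choose_spec (h1 _)
  · rw [dif_neg h]
    push Not at h
    constructor
    · rintro rfl; exact Or.inr ⟨rfl, h⟩
    · rintro (h1 | ⟨h1, _⟩)
      · exact absurd h1 (h _)
      · exact h1.symm

theorem measurable_val (c : OCode) : Measurable (val c) := by
  refine measurable_pi_iff.2 fun n => measurable_to_countable' fun v => ?_
  have : (fun x => val c x n) ⁻¹' {v} = {x : ℕ → ℕ | v ∈ c.eval (fun i => Part.some (x i)) n} ∪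
      ({_x | v = 0} ∩ ⋂ u, {x : ℕ → ℕ | u ∈ c.eval (fun i => Part.some (x i)) n}ᶜ) := by
    ext x
    simp only [mem_preimage, mem_singleton_iff, val_iff]
    simp
  rw [this]
  refine (isOpen_eval c n v).measurableSet.union (MeasurableSet.inter ?_ ?_)
  · exact MeasurableSet.const _
  · exact MeasurableSet.iInter fun u => (isOpen_eval c n u).measurableSet.compl

theorem phi_embedding (d : ℕ → ℕ) : MeasurableEmbedding (phi d) :=
  (phi_continuous.isClosedEmbedding phi_injective).measurableEmbedding

/-- the functions which are coded by `phi` and equivalent to `x` by the given programs -/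
def Cod (d : ℕ → ℕ) (e : OCode × OCode) : Set (ℕ → ℕ) :=
  {x | ∃ a, Via e x (phi d a)}

theorem measurable_cod (d : ℕ → ℕ) (e : OCode × OCode) : MeasurableSet (Cod d e) := by
  have : Cod d e = {x | Computes e.1 x (val e.1 x)} ∩ {x | val e.1 x ∈ range (phi d)} ∩
      {x | Computes e.2 (val e.1 x) x} := by
    ext x
    constructor
    · rintro ⟨a, h1, h2⟩
      have := val_eq h1
      refine ⟨⟨?_, ?_⟩, ?_⟩
      · show Computes e.1 x (val e.1 x); rw [this]; exact h1
      · exact ⟨a, this.symm⟩
      · show Computes e.2 (val e.1 x) x; rw [this]; exact h2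
    · rintro ⟨⟨h1, a, ha⟩, h2⟩
      refine ⟨a, ?_, ?_⟩
      · rw [ha]; exact h1
      · rw [ha]; exact h2
  rw [this]
  exact ((measurable_computes _ measurable_id (measurable_val _)).inter
    (measurable_val _ (phi_embedding d).measurableSet_range)).inter
    (measurable_computes _ (measurable_val _) measurable_id)

/-- decoding -/
noncomputable def Q (d : ℕ → ℕ) : (ℕ → ℕ) → (ℕ → ℕ) :=
  Function.extend (phi d) psi (fun _ => fun _ => 0)

theorem measurable_Q (d : ℕ → ℕ) : Measurable (Q d) :=
  (phi_embedding d).measurable_extend psi_continuous.measurable measurable_const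

theorem Q_phi (d : ℕ → ℕ) (a : ℕ → Bool) : Q d (phi d a) = psi a :=
  phi_injective.extend_apply _ _ _

instance : Nonempty OCode := ⟨.zero⟩

/-- an enumeration of the pairs of programs -/
noncomputable def pr : ℕ → OCode × OCode := (exists_surjective_nat (OCode × OCode)).choose

theorem pr_surj : Function.Surjective pr := (exists_surjective_nat (OCode × OCode)).choose_spec

open Classical in
/-- candidate value with the `n`-th pair of programs -/
noncomputable def cand (d : ℕ → ℕ) (n : ℕ) (x : ℕ → ℕ) : ℕ → ℕ :=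
  if x ∈ Cod d (pr n) then Q d (val (pr n).1 x) else fun _ => 0

theorem exists_index (d x : ℕ → ℕ) : ∃ n, x ∈ Cod d (pr n) ∨ ∀ m, x ∉ Cod d (pr m) := by
  by_cases h : ∃ n, x ∈ Cod d (pr n)
  · obtain ⟨n, hn⟩ := h; exact ⟨n, Or.inl hn⟩
  · push Not at h; exact ⟨0, Or.inr h⟩

open Classical in
/-- The representing function. -/
noncomputable def F0 (d x : ℕ → ℕ) : ℕ → ℕ := cand d (Nat.find (exists_index d x)) x

theorem measurable_F0 (d : ℕ → ℕ) : Measurable (F0 d) := by
  classical
  have h : Measurable (fun x => cand d (Nat.find (exists_index d x)) x) := by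
    refine Measurable.find (f := cand d)
      (p := fun n x => x ∈ Cod d (pr n) ∨ ∀ m, x ∉ Cod d (pr m))
      (fun n => ?_) (fun n => ?_) (exists_index d)
    rotate_left
    · have : {x | x ∈ Cod d (pr n) ∨ ∀ m, x ∉ Cod d (pr m)} =
          Cod d (pr n) ∪ ⋂ m, (Cod d (pr m))ᶜ := by
        ext x; simp
      rw [this]
      exact (measurable_cod _ _).union (MeasurableSet.iInter fun m => (measurable_cod _ _).compl)
    unfold cand
    exact Measurable.ite (measurable_cod _ _) ((measurable_Q d).comp (measurable_val _))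
      measurable_const
  have e : F0 d = fun x => cand d (Nat.find (exists_index d x)) x := by
    funext x
    unfold F0
    congr!
  rw [e]
  exact h

theorem F0_coded {d x : ℕ → ℕ} {a : ℕ → Bool} (h : TuringEquivalent (tot x) (tot (phi d a))) :
    ∃ b, TuringEquivalent (tot x) (tot (phi d b)) ∧ F0 d x = psi b := by
  classical
  obtain ⟨e, he⟩ := via_iff.2 h
  obtain ⟨n, rfl⟩ := pr_surj e
  have h1 := Nat.find_spec (exists_index d x)
  rcases h1 with h1 | h1
  · obtain ⟨b, hb⟩ := id h1
    refine ⟨b, via_iff.1 ⟨_, hb⟩, ?_⟩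
    unfold F0 cand
    rw [if_pos h1, val_eq hb.1, Q_phi]
  · exact absurd ⟨a, he⟩ (h1 n)

theorem F0_not_coded {d x : ℕ → ℕ} (h : ∀ a, ¬ TuringEquivalent (tot x) (tot (phi d a))) :
    F0 d x = fun _ => 0 := by
  classical
  unfold F0 cand
  rw [if_neg]
  rintro ⟨a, ha⟩
  exact h a (via_iff.1 ⟨_, ha⟩)

theorem F0_invariant {d x y : ℕ → ℕ} (h : TuringEquivalent (tot x) (tot y)) :
    TuringEquivalent (tot (F0 d x)) (tot (F0 d y)) := by
  by_cases hx : ∃ a, TuringEquivalent (tot x) (tot (phi d a))
  · obtain ⟨a, ha⟩ := hx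
    obtain ⟨b, hb, e1⟩ := F0_coded ha
    obtain ⟨b', hb', e2⟩ := F0_coded (TuringEquivalent.trans _ _ _ h.symm ha)
    rw [e1, e2]
    exact psi_equiv_of_phi
      (TuringEquivalent.trans _ _ _ (TuringEquivalent.trans _ _ _ hb.symm h) hb')
  · push Not at hx
    have hy : ∀ a, ¬ TuringEquivalent (tot y) (tot (phi d a)) := fun a ha =>
      hx a (TuringEquivalent.trans _ _ _ h ha)
    rw [F0_not_coded hx, F0_not_coded hy]

theorem F0_phi (d : ℕ → ℕ) (w : ℕ → Bool) :
    TuringEquivalent (tot (F0 d (phi d w))) (tot (psi w)) := by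
  obtain ⟨b, hb, e1⟩ := F0_coded (TuringEquivalent.refl (tot (phi d w)))
  rw [e1]
  exact psi_equiv_of_phi hb.symm

/-! ### The category argument -/

/-- change the bit at `2m` -/
def flp (m : ℕ) (w : ℕ → Bool) (k : ℕ) : Bool := if k = 2 * m then !(w k) else w k

/-- change the bit at `2m+2` and correct the code -/
def str (m : ℕ) (w : ℕ → Bool) (k : ℕ) : Bool :=
  if k = 2 * m + 2 then !(w k) else if k = 2 * m + 3 then xor (w k) (w (k + 1)) else w k

theorem flp_flp (m : ℕ) : Function.Involutive (flp m) := by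
  intro w; funext k; unfold flp; by_cases h : k = 2 * m <;> simp [h]

theorem str_str (m : ℕ) : Function.Involutive (str m) := by
  intro w; funext k; unfold str
  by_cases h : k = 2 * m + 2
  · simp [h]
  · by_cases h' : k = 2 * m + 3
    · subst h'; simp
    · simp [h, h']

theorem flp_continuous (m : ℕ) : Continuous (flp m) := by
  refine continuous_pi fun n => continuous_of_use _ fun s => ⟨n + 1, fun s' hs' => ?_⟩
  unfold flp; rw [hs' n (by omega)]

theorem str_continuous (m : ℕ) : Continuous (str m) := by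
  refine continuous_pi fun n => continuous_of_use _ fun s => ⟨n + 2, fun s' hs' => ?_⟩
  unfold str; rw [hs' n (by omega), hs' (n + 1) (by omega)]

theorem isOpenMap_of_involutive {X : Type} [TopologicalSpace X] {f : X → X}
    (h : Function.Involutive f) (hc : Continuous f) : IsOpenMap f := by
  intro U hU
  have : f '' U = f ⁻¹' U := by
    ext x
    constructor
    · rintro ⟨y, hy, rfl⟩; show f (f y) ∈ U; rw [h y]; exact hy
    · intro hx; exact ⟨f x, hx, h x⟩
  rw [this]
  exact hU.preimage hc

theorem psi_str {m : ℕ} {w : ℕ → Bool} (h : w (2 * m) = false) : psi (str m w) = psi w := by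
  funext n
  unfold psi str
  by_cases h1 : n = m
  · subst h1
    simp [h]
  · by_cases h2 : n = m + 1
    · subst h2
      have e1 : 2 * (m + 1) + 1 = 2 * m + 3 := by ring
      have e2 : 2 * (m + 1) = 2 * m + 2 := by ring
      have e3 : 2 * (m + 1) + 2 = 2 * m + 4 := by ring
      rw [e1, e3, e2]
      cases w (2 * m + 3) <;> cases w (2 * m + 4) <;> cases w (2 * m + 2) <;> simp
    · have a1 : 2 * n + 1 ≠ 2 * m + 2 := by omega
      have a2 : 2 * n + 1 ≠ 2 * m + 3 := by omega
      have a3 : 2 * n ≠ 2 * m + 2 := by omega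
      have a4 : 2 * n ≠ 2 * m + 3 := by omega
      have a5 : 2 * n + 2 ≠ 2 * m + 2 := by omega
      have a6 : 2 * n + 2 ≠ 2 * m + 3 := by omega
      simp only [if_neg a1, if_neg a2, if_neg a3, if_neg a4, if_neg a5, if_neg a6]

theorem psi_flp_str {m : ℕ} {w : ℕ → Bool} (h : w (2 * m) = false) :
    psi (flp m (str m w)) ≠ psi (flp m w) := by
  intro h1
  have h2 := congrFun h1 m
  unfold psi flp str at h2
  cases h3 : w (2 * m + 1) <;> cases h4 : w (2 * m + 2) <;> simp [h, h3, h4] at h2

theorem isOpen_coord (n v : ℕ) : IsOpen {y : ℕ → ℕ | y n = v} :=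
  (isOpen_discrete ({v} : Set ℕ)).preimage (continuous_apply (A := fun _ => ℕ) n)

/-- No representation with the property of Baire is uniform. -/
theorem not_uniform (d : ℕ → ℕ) (num : ℕ → OCode) (hnum : Function.Surjective num)
    (F : (ℕ → ℕ) → (ℕ → ℕ))
    (hB : ∀ U : Set (ℕ → ℕ), IsOpen U → BaireMeasurableSet ((fun w => F (phi d w)) ⁻¹' U))
    (hF : ∀ w, TuringEquivalent (tot (F (phi d w))) (tot (F0 d (phi d w)))) (t : ℕ → ℕ) :
    ∃ (w w' : ℕ → Bool) (e : ℕ), Via (num e.unpair.1, num e.unpair.2) (phi d w) (phi d w') ∧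
      ¬ Via (num (t e).unpair.1, num (t e).unpair.2) (F (phi d w)) (F (phi d w')) := by
  classical
  by_contra hcon
  push Not at hcon
  set G : (ℕ → Bool) → (ℕ → ℕ) := fun w => F (phi d w) with hG
  have hGpsi : ∀ w, ∃ e, Via e (psi w) (G w) := fun w =>
    via_iff.2 (TuringEquivalent.trans _ _ _ (F0_phi d w).symm (hF w).symm)
  let D : OCode × OCode → Set (ℕ → Bool) := fun e => {w | Via e (psi w) (G w)}
  have hD : ∀ e, BaireMeasurableSet (D e) := by
    intro e
    have h1 : BaireMeasurableSet {w | Computes e.1 (psi w) (G w)} := by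
      have : {w | Computes e.1 (psi w) (G w)} = ⋂ n, ⋃ v, (G ⁻¹' {y | y n = v} ∩
          psi ⁻¹' {x : ℕ → ℕ | v ∈ e.1.eval (fun i => Part.some (x i)) n}) := by
        ext a
        simp [Computes]
      rw [this]
      refine BaireMeasurableSet.iInter fun n => BaireMeasurableSet.iUnion fun v => ?_
      refine (hB _ (isOpen_coord n v)).inter ?_
      · exact ((isOpen_eval e.1 n v).preimage psi_continuous).baireMeasurableSet
    have h2 : BaireMeasurableSet {w | Computes e.2 (G w) (psi w)} := by
      have : {w | Computes e.2 (G w) (psi w)} = ⋂ n, ⋃ v, (psi ⁻¹' {y | y n = v} ∩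
          G ⁻¹' {x : ℕ → ℕ | v ∈ e.2.eval (fun i => Part.some (x i)) n}) := by
        ext a
        simp [Computes]
      rw [this]
      refine BaireMeasurableSet.iInter fun n => BaireMeasurableSet.iUnion fun v => ?_
      refine BaireMeasurableSet.inter ?_ (hB _ (isOpen_eval e.2 n v))
      exact ((isOpen_coord n v).preimage psi_continuous).baireMeasurableSet
    exact h1.inter h2
  obtain ⟨e, he⟩ : ∃ e, ¬ IsMeagre (D e) := by
    by_contra h
    push Not at h
    have h1 : IsMeagre (⋃ n, D (pr n)) := isMeagre_iUnion fun n => h _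
    have h2 : (⋃ n, D (pr n)) = univ := by
      ext w
      obtain ⟨e, he⟩ := hGpsi w
      obtain ⟨n, rfl⟩ := pr_surj e
      simp only [mem_iUnion, mem_univ, iff_true]
      exact ⟨n, he⟩
    rw [h2] at h1
    exact not_isMeagre_of_isOpen isOpen_univ univ_nonempty h1
  obtain ⟨U, hUo, hU⟩ := (hD e).residualEq_isOpen
  have hUne : U.Nonempty := by
    by_contra h
    rw [not_nonempty_iff_eq_empty] at h
    apply he
    rw [h] at hU
    have : (D e)ᶜ ∈ residual (ℕ → Bool) := by
      filter_upwards [hU] with w hw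
      intro h'
      exact (Iff.of_eq hw).1 h'
    exact this
  obtain ⟨w0, hw0⟩ := hUne
  obtain ⟨m, hm⟩ : ∃ m, ∀ w : ℕ → Bool, (∀ k < 2 * m, w k = w0 k) → w ∈ U := by
    rw [isOpen_pi_iff] at hUo
    obtain ⟨I, u, h1, h2⟩ := hUo w0 hw0
    refine ⟨I.sup id + 1, fun w hw => h2 ?_⟩
    intro k hk
    rw [hw k]
    · exact (h1 k hk).2
    · have := Finset.le_sup (f := id) hk
      simp only [id] at this
      omega
  have hR : {w | w ∈ D e ↔ w ∈ U} ∈ residual (ℕ → Bool) := by
    filter_upwards [hU] with w hw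
    exact Iff.of_eq hw
  have t1 := tendsto_residual_of_isOpenMap (flp_continuous m)
    (isOpenMap_of_involutive (flp_flp m) (flp_continuous m))
  have t2 := tendsto_residual_of_isOpenMap (str_continuous m)
    (isOpenMap_of_involutive (str_str m) (str_continuous m))
  have hall : {w | w ∈ D e ↔ w ∈ U} ∩ flp m ⁻¹' {w | w ∈ D e ↔ w ∈ U} ∩
      (str m ⁻¹' {w | w ∈ D e ↔ w ∈ U}) ∩ (str m ⁻¹' (flp m ⁻¹' {w | w ∈ D e ↔ w ∈ U})) ∈
      residual (ℕ → Bool) :=
    inter_mem (inter_mem (inter_mem hR (t1 hR)) (t2 hR)) (t2 (t1 hR))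
  have hdense := dense_of_mem_residual hall
  have hWo : IsOpen {w : ℕ → Bool | ∀ k < 2 * m + 1, w k = if k < 2 * m then w0 k else false} :=
    isOpen_agree (fun k => if k < 2 * m then w0 k else false) _
  obtain ⟨w, hwW, ⟨⟨hw1, hw2⟩, hw3⟩, hw4⟩ := hdense.inter_open_nonempty _ hWo
    ⟨fun k => if k < 2 * m then w0 k else false, fun k _ => rfl⟩
  have hb : w (2 * m) = false := by
    have := hwW (2 * m) (by omega)
    rwa [if_neg (lt_irrefl _)] at this
  have hlow : ∀ k < 2 * m, w k = w0 k := fun k hk => by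
    have := hwW k (by omega)
    rwa [if_pos hk] at this
  have hflow : ∀ (v : ℕ → Bool), ∀ k < 2 * m, flp m v k = v k := fun v k hk => by
    unfold flp; rw [if_neg (by omega)]
  have hslow : ∀ k < 2 * m + 1, str m w k = w k := fun k hk => by
    unfold str; rw [if_neg (by omega), if_neg (by omega)]
  have d1 : w ∈ D e := hw1.2 (hm w hlow)
  have d2 : flp m w ∈ D e := hw2.2 (hm _ fun k hk => by rw [hflow _ k hk, hlow k hk])
  have d3 : str m w ∈ D e := hw3.2 (hm _ fun k hk => by rw [hslow k (by omega), hlow k hk])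
  have d4 : flp m (str m w) ∈ D e := hw4.2 (hm _ fun k hk => by
    rw [hflow _ k hk, hslow k (by omega), hlow k hk])
  -- the programs
  obtain ⟨p, hp⟩ := exists_via d (2 * m + 1) w (flp m w)
  have v1 : Via p (phi d w) (phi d (flp m w)) := hp _ _ (fun _ _ => rfl) (fun _ _ => rfl)
    (fun k hk => by unfold flp; rw [if_neg (by omega)])
  have v2 : Via p (phi d (str m w)) (phi d (flp m (str m w))) := by
    refine hp _ _ hslow (fun k hk => ?_) (fun k hk => by unfold flp; rw [if_neg (by omega)])
    unfold flp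
    rw [hslow k hk]
  obtain ⟨i, hi⟩ := hnum p.1
  obtain ⟨j, hj⟩ := hnum p.2
  have hij : (num (Nat.pair i j).unpair.1, num (Nat.pair i j).unpair.2) = p := by
    rw [Nat.unpair_pair]; simp only [hi, hj]
  have g1 := hcon w (flp m w) (Nat.pair i j) (by rw [hij]; exact v1)
  have g2 := hcon (str m w) (flp m (str m w)) (Nat.pair i j) (by rw [hij]; exact v2)
  have e1 : G w = G (str m w) := by
    have := d3.1
    rw [psi_str hb] at this
    exact d1.1.unique this
  have e2 : G (flp m w) = G (flp m (str m w)) := by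
    have h1 := g1.1
    have h2 := g2.1
    change Computes _ (G w) (G (flp m w)) at h1
    change Computes _ (G (str m w)) (G (flp m (str m w))) at h2
    rw [← e1] at h2
    exact h1.unique h2
  have e3 : psi (flp m w) = psi (flp m (str m w)) := by
    have h1 := d2.2
    have h2 := d4.2
    rw [← e2] at h2
    exact h1.unique h2
  exact psi_flp_str hb e3.symm

end Pool.Agent.W932.UR
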