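import Pool.Agent.W932.UR.Codes

set_option autoImplicit false

/-! A family of functions indexed by Cantor space in which Turing reducibility is eventual
equality of the indices, and eventual equality is witnessed by fixed programs. -/

namespace Pool.Agent.W932.UR

open Pool.Agent.Helper578.OG

/-- the join of two functions -/
def join (b x : ℕ → ℕ) (n : ℕ) : ℕ := if n % 2 = 0 then b (n / 2) else x (n / 2)

/-- the initial segment of the join with `b` given by a list -/
def jl (b : ℕ → ℕ) (τ : List ℕ) : List ℕ :=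
  (List.range (2 * τ.length)).map fun n => if n % 2 = 0 then b (n / 2) else τ.getD (n / 2) 0

@[simp] theorem jl_length (b : ℕ → ℕ) (τ : List ℕ) : (jl b τ).length = 2 * τ.length := by
  simp [jl]

theorem jl_getElem? (b : ℕ → ℕ) (τ : List ℕ) {n : ℕ} (h : n < 2 * τ.length) :
    (jl b τ)[n]? = some (if n % 2 = 0 then b (n / 2) else τ.getD (n / 2) 0) := by
  simp [jl, h]

theorem jl_ext {b : ℕ → ℕ} {τ : List ℕ} {x : ℕ → ℕ} (h : Ext τ x) : Ext (jl b τ) (join b x) := by
  intro n v hv
  have hn : n < 2 * τ.length := by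
    have := (List.getElem?_eq_some_iff.1 hv).1
    simpa using this
  rw [jl_getElem? b τ hn] at hv
  have h1 : n / 2 < τ.length := by omega
  have h2 := h (n / 2) _ (List.getElem?_eq_getElem h1)
  have h3 : τ.getD (n / 2) 0 = τ[n / 2] := by
    rw [List.getD_eq_getElem?_getD, List.getElem?_eq_getElem h1]; rfl
  rw [h3, ← h2] at hv
  exact Option.some.inj hv

theorem jl_prefix (b : ℕ → ℕ) {τ τ' : List ℕ} (h : τ <+: τ') : jl b τ <+: jl b τ' := by
  obtain ⟨ρ, rfl⟩ := h
  rw [List.prefix_iff_eq_take]
  apply List.ext_getElem?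
  intro n
  by_cases hn : n < 2 * τ.length
  · rw [List.getElem?_take, if_pos (by simpa using hn), jl_getElem? b τ hn, jl_getElem? b (τ ++ ρ)
      (by simp; omega)]
    rw [List.getD_eq_getElem?_getD, List.getD_eq_getElem?_getD, List.getElem?_append_left (by omega)]
  · rw [List.getElem?_eq_none (by simpa using hn), List.getElem?_take, if_neg (by simpa using hn)]

theorem join_ext_seg {b x : ℕ → ℕ} (k : ℕ) : seg (join b x) (2 * k) = jl b (seg x k) := by
  have h1 := jl_ext (b := b) (seg_ext x k)
  rw [ext_eq_seg h1]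
  simp [seg]

/-- one requirement: `c` does not compute, from the join of `b` with an extension of
`p ++ β i`, the join of `b` with an extension of `q ++ β (!i)` -/
def Met (b : ℕ → ℕ) (c : OCode) (p q : List ℕ) (i : Bool) (β : Bool → List ℕ) : Prop :=
  ∀ x y : ℕ → ℕ, Ext (p ++ β i) x → Ext (q ++ β (!i)) y → ¬ Computes c (join b x) (join b y)

theorem Met.mono {d : ℕ → ℕ} {c : OCode} {p q : List ℕ} {i : Bool} {β β' : Bool → List ℕ}
    (h : Met d c p q i β) (hβ : ∀ b, β b <+: β' b) : Met d c p q i β' := by
  intro x y hx hy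
  obtain ⟨ρ, hρ⟩ := hβ i
  obtain ⟨ρ', hρ'⟩ := hβ (!i)
  refine h x y ?_ ?_
  · rw [← hρ, ← List.append_assoc] at hx; exact hx.of_append
  · rw [← hρ', ← List.append_assoc] at hy; exact hy.of_append

theorem one_step (d : ℕ → ℕ) (c : OCode) (p q : List ℕ) (i : Bool) (β : Bool → List ℕ) :
    ∃ β' : Bool → List ℕ, (∀ b, β b <+: β' b) ∧ Met d c p q i β' := by
  by_cases h : ∃ (ρ : List ℕ) (v : ℕ),
      v ∈ c.eval (lk (jl d (p ++ β i ++ ρ))) (2 * (q ++ β (!i)).length + 1)
  · obtain ⟨ρ, v, hv⟩ := h
    refine ⟨fun b => if b = i then β i ++ ρ else β (!i) ++ [v + 1], ?_, ?_⟩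
    · intro b
      by_cases hb : b = i
      · subst hb; simp
      · have : b = !i := by cases b <;> cases i <;> simp_all
        subst this
        simp
    · intro x y hx hy hc
      simp only [if_pos] at hx
      have hne : (!i) ≠ i := by cases i <;> simp
      simp only [if_neg hne] at hy
      rw [← List.append_assoc] at hx hy
      have h1 := eval_mono_ext (jl_ext hx) hv
      have h2 : y (q ++ β (!i)).length = v + 1 := by
        apply hy
        simp
      have h4 : join d y (2 * (q ++ β (!i)).length + 1) = v + 1 := by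
        unfold join
        rw [if_neg (by omega), show (2 * (q ++ β (!i)).length + 1) / 2 = (q ++ β (!i)).length by
          omega]
        exact h2
      have h3 := Part.mem_unique h1 (hc _)
      omega
  · push Not at h
    refine ⟨β, fun b => List.prefix_rfl, ?_⟩
    intro x y hx _ hc
    obtain ⟨m, hm⟩ := eval_use (hc (2 * (q ++ β (!i)).length + 1))
    have h1 := hm (2 * max m (p ++ β i).length) (by omega)
    obtain ⟨ρ, hρ⟩ := seg_append x (le_max_right m (p ++ β i).length)
    rw [join_ext_seg, hρ, ← ext_eq_seg hx] at h1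
    exact h ρ _ h1

theorem list_step (d : ℕ → ℕ) (T : List (OCode × List ℕ × List ℕ × Bool)) (β : Bool → List ℕ) :
    ∃ β' : Bool → List ℕ, (∀ b, β b <+: β' b) ∧
      ∀ t ∈ T, Met d t.1 t.2.1 t.2.2.1 t.2.2.2 β' := by
  induction T generalizing β with
  | nil => exact ⟨β, fun b => List.prefix_rfl, by simp⟩
  | cons t T ih =>
    obtain ⟨β1, h1, h1'⟩ := one_step d t.1 t.2.1 t.2.2.1 t.2.2.2 β
    obtain ⟨β2, h2, h2'⟩ := ih β1
    refine ⟨β2, fun b => (h1 b).trans (h2 b), ?_⟩
    intro s hs
    rcases List.mem_cons.1 hs with rfl | hs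
    · exact h1'.mono h2
    · exact h2' s hs

/-- padding to a common positive length -/
theorem pad (β : Bool → List ℕ) : ∃ β' : Bool → List ℕ, (∀ b, β b <+: β' b) ∧
    β' false ≠ β' true ∧ (∃ k, 0 < k ∧ ∀ b, (β' b).length = k) := by
  refine ⟨fun b => β b ++ (List.replicate (β (!b)).length 0 ++ [b.toNat]),
    fun b => List.prefix_append _ _, ?_,
    1 + (β false).length + (β true).length, by omega, ?_⟩
  · intro h
    have h1 := congrArg List.getLast? h
    simp at h1
  · intro b
    cases b <;> simp <;> omega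

noncomputable instance : Encodable OCode := Encodable.ofCountable OCode

/-- what the blocks of stage `n` have to satisfy -/
def Good (d : ℕ → ℕ) (n : ℕ) (C : (ℕ → Bool) → List ℕ) (β : Bool → List ℕ) : Prop :=
  (β false ≠ β true ∧ ∃ k, 0 < k ∧ ∀ b, (β b).length = k) ∧
    ∀ (c : OCode) (s s' : ℕ → Bool) (i : Bool), Encodable.encode c ≤ n →
      Met d c (C s) (C s') i β

theorem exists_good (d : ℕ → ℕ) (n : ℕ) (C : (ℕ → Bool) → List ℕ) (hC : (Set.range C).Finite) :
    ∃ β, Good d n C β := by
  have hE : {c : OCode | Encodable.encode c ≤ n}.Finite :=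
    Set.Finite.preimage (Encodable.encode_injective.injOn) (Set.finite_Iic n)
  obtain ⟨T, hT⟩ : ∃ T : List (OCode × List ℕ × List ℕ × Bool),
      ∀ t, t ∈ T ↔ t ∈ {c : OCode | Encodable.encode c ≤ n} ×ˢ (Set.range C ×ˢ (Set.range C ×ˢ
        (Set.univ : Set Bool))) := by
    have hfin := hE.prod (hC.prod (hC.prod (Set.finite_univ : (Set.univ : Set Bool).Finite)))
    exact ⟨hfin.toFinset.toList, fun t => by simp⟩
  obtain ⟨β1, _, h1⟩ := list_step d T (fun _ => [])
  obtain ⟨β2, h2, h3⟩ := pad β1
  refine ⟨β2, h3, ?_⟩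
  intro c s s' i hc
  exact (h1 (c, C s, C s', i) ((hT _).2 ⟨hc, ⟨s, rfl⟩, ⟨s', rfl⟩, trivial⟩)).mono h2

open Classical in
/-- the blocks chosen for stage `n` -/
noncomputable def nxt (d : ℕ → ℕ) (n : ℕ) (C : (ℕ → Bool) → List ℕ) : Bool → List ℕ :=
  if h : ∃ β, Good d n C β then h.choose else fun _ => []

/-- initial segments -/
noncomputable def cat (d : ℕ → ℕ) : ℕ → (ℕ → Bool) → List ℕ
  | 0 => fun _ => []
  | n + 1 => fun s => cat d n s ++ nxt d n (cat d n) (s n)

variable {d : ℕ → ℕ}

theorem cat_congr {n : ℕ} {s s' : ℕ → Bool} (h : ∀ k < n, s k = s' k) : cat d n s = cat d n s' := by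
  induction n with
  | zero => rfl
  | succ n ih =>
    show cat d n s ++ _ = cat d n s' ++ _
    rw [ih fun k hk => h k (by omega), h n (by omega)]

theorem cat_finite (n : ℕ) : (Set.range (cat d n)).Finite := by
  induction n with
  | zero =>
    refine (Set.finite_singleton ([] : List ℕ)).subset ?_
    rintro _ ⟨s, rfl⟩; rfl
  | succ n ih =>
    refine (Set.Finite.image2 (fun l b => l ++ nxt d n (cat d n) b) ih
      (Set.finite_univ : (Set.univ : Set Bool).Finite)).subset ?_
    rintro _ ⟨s, rfl⟩
    exact ⟨cat d n s, ⟨s, rfl⟩, s n, trivial, rfl⟩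

theorem nxt_good (n : ℕ) : Good d n (cat d n) (nxt d n (cat d n)) := by
  have h := exists_good d n (cat d n) (cat_finite n)
  unfold nxt
  rw [dif_pos h]
  exact h.choose_spec

/-- the length of the initial segments of stage `n` -/
noncomputable def len (d : ℕ → ℕ) (n : ℕ) : ℕ := (cat d n fun _ => false).length

theorem nxt_length (n : ℕ) (b b' : Bool) :
    (nxt d n (cat d n) b).length = (nxt d n (cat d n) b').length := by
  obtain ⟨_, k, _, hk⟩ := (nxt_good (d := d) n).1
  rw [hk, hk]

theorem cat_length (n : ℕ) (s : ℕ → Bool) : (cat d n s).length = len d n := by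
  unfold len
  induction n with
  | zero => rfl
  | succ n ih =>
    show (cat d n s ++ _).length = (cat d n _ ++ _).length
    rw [List.length_append, List.length_append, ih, nxt_length]

theorem len_succ (n : ℕ) : len d n < len d (n + 1) := by
  obtain ⟨_, k, hk0, hk⟩ := (nxt_good (d := d) n).1
  rw [← cat_length (n + 1) fun _ => false, ← cat_length n fun _ => false]
  show _ < (cat d n _ ++ _).length
  rw [List.length_append, hk]
  omega

theorem le_len (n : ℕ) : n ≤ len d n := by
  induction n with
  | zero => exact Nat.zero_le _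
  | succ n ih => have := len_succ (d := d) n; omega

theorem cat_prefix {m n : ℕ} (h : m ≤ n) (s : ℕ → Bool) : cat d m s <+: cat d n s := by
  induction n, h using Nat.le_induction with
  | base => exact List.prefix_rfl
  | succ n _ ih => exact ih.trans (List.prefix_append _ _)

/-- the second half of the function with index `s` -/
noncomputable def ph (d : ℕ → ℕ) (s : ℕ → Bool) (k : ℕ) : ℕ := (cat d (k + 1) s).getD k 0

theorem ph_ext (n : ℕ) (s : ℕ → Bool) : Ext (cat d n s) (ph d s) := by
  intro i v hv
  unfold ph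
  have hi : i < (cat d n s).length := (List.getElem?_eq_some_iff.1 hv).1
  rcases le_total (i + 1) n with h | h
  · obtain ⟨ρ, hρ⟩ := cat_prefix (d := d) h s
    have h1 : i < (cat d (i + 1) s).length := by
      rw [cat_length]; exact lt_of_lt_of_le (Nat.lt_succ_self i) (le_len _)
    rw [← hρ, List.getElem?_append_left h1] at hv
    rw [List.getD_eq_getElem?_getD, hv]; rfl
  · obtain ⟨ρ, hρ⟩ := cat_prefix (d := d) h s
    rw [← hρ, List.getD_eq_getElem?_getD, List.getElem?_append_left hi, hv]; rfl

theorem ph_patch {N : ℕ} {s s' : ℕ → Bool} (h : ∀ k, N ≤ k → s k = s' k) :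
    ph d s' = patch (cat d N s') (ph d s) := by
  funext k
  unfold patch
  by_cases hk : k < (cat d N s').length
  · rw [if_pos hk]
    have h1 := ph_ext (d := d) N s' k _ (List.getElem?_eq_getElem hk)
    rw [h1, List.getD_eq_getElem?_getD, List.getElem?_eq_getElem hk]; rfl
  · rw [if_neg hk]
    have htail : ∀ n, N ≤ n → ∃ τ, cat d n s = cat d N s ++ τ ∧ cat d n s' = cat d N s' ++ τ := by
      intro n hn
      induction n, hn using Nat.le_induction with
      | base => exact ⟨[], by simp, by simp⟩
      | succ n hn ih =>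
        obtain ⟨τ, h1, h2⟩ := ih
        refine ⟨τ ++ nxt d n (cat d n) (s n), ?_, ?_⟩
        · show cat d n s ++ _ = _
          rw [← List.append_assoc, ← h1]
        · show cat d n s' ++ _ = _
          rw [← List.append_assoc, ← h2, h n hn]
    obtain ⟨τ, h1, h2⟩ := htail _ (le_max_left N (k + 1))
    have hk1 : k < (cat d (max N (k + 1)) s').length := by
      rw [cat_length]
      exact lt_of_lt_of_le (Nat.lt_succ_self k) ((le_max_right N (k + 1)).trans (le_len _))
    have hk2 : k < (cat d (max N (k + 1)) s).length := by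
      rw [cat_length] at hk1 ⊢; exact hk1
    have e1 := ph_ext (d := d) (max N (k + 1)) s' k _ (List.getElem?_eq_getElem hk1)
    have e2 := ph_ext (d := d) (max N (k + 1)) s k _ (List.getElem?_eq_getElem hk2)
    rw [e1, e2]
    have hlen : (cat d N s).length = (cat d N s').length := by rw [cat_length, cat_length]
    apply Option.some.inj
    rw [← List.getElem?_eq_getElem, ← List.getElem?_eq_getElem, h1, h2,
      List.getElem?_append_right (not_lt.1 hk), List.getElem?_append_right
      (by rw [hlen]; exact not_lt.1 hk), hlen]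

/-- the function with index `s`, above `d` -/
noncomputable def phi (d : ℕ → ℕ) (s : ℕ → Bool) : ℕ → ℕ := join d (ph d s)

/-- Only eventually equal indices give Turing comparable functions. -/
theorem phi_rigid {c : OCode} {s s' : ℕ → Bool} (h : Computes c (phi d s) (phi d s')) :
    ∀ n, Encodable.encode c ≤ n → s n = s' n := by
  intro n hn
  by_contra hne
  have hs : s' n = !(s n) := by
    cases h1 : s n <;> cases h2 : s' n <;> simp_all
  refine (nxt_good (d := d) n).2 c s s' (s n) hn (ph d s) (ph d s') ?_ ?_ h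
  · exact ph_ext (n + 1) s
  · rw [← hs]; exact ph_ext (n + 1) s'

theorem join_patch (b : ℕ → ℕ) (L : List ℕ) (x : ℕ → ℕ) :
    join b (patch L x) = patch (jl b L) (join b x) := by
  funext n
  unfold patch
  by_cases h : n < (jl b L).length
  · rw [if_pos h]
    have h' : n < 2 * L.length := by simpa using h
    rw [List.getD_eq_getElem?_getD, jl_getElem? b L h', Option.getD_some]
    unfold join
    by_cases h2 : n % 2 = 0
    · simp only [if_pos h2]
    · simp only [if_neg h2]
      rw [if_pos (by omega)]
  · rw [if_neg h]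
    have h' : ¬ n < 2 * L.length := by simpa using h
    unfold join
    by_cases h2 : n % 2 = 0
    · simp only [if_pos h2]
    · simp only [if_neg h2]
      rw [if_neg (by omega)]

theorem phi_patch {N : ℕ} {s s' : ℕ → Bool} (h : ∀ k, N ≤ k → s k = s' k) :
    phi d s' = patch (jl d (cat d N s')) (phi d s) := by
  unfold phi
  rw [← join_patch, ← ph_patch h]

/-- Changing the first `N` values of the index is witnessed by a pair of programs that depends only
on the first `N` values. -/
theorem exists_via (d : ℕ → ℕ) (N : ℕ) (a b : ℕ → Bool) : ∃ e : OCode × OCode,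
    ∀ s s' : ℕ → Bool,
    (∀ k < N, s k = a k) → (∀ k < N, s' k = b k) → (∀ k, N ≤ k → s k = s' k) →
      Via e (phi d s) (phi d s') := by
  obtain ⟨c, hc⟩ := exists_patch (jl d (cat d N b))
  obtain ⟨c', hc'⟩ := exists_patch (jl d (cat d N a))
  refine ⟨(c, c'), fun s s' hs hs' h => ⟨?_, ?_⟩⟩
  · rw [phi_patch h, cat_congr hs']
    exact hc _
  · rw [phi_patch fun k hk => (h k hk).symm, cat_congr hs]
    exact hc' _

theorem join_injective {b x y : ℕ → ℕ} (h : join b x = join b y) : x = y := by
  funext n
  have := congrFun h (2 * n + 1)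
  unfold join at this
  rw [if_neg (by omega), if_neg (by omega), show (2 * n + 1) / 2 = n by omega] at this
  exact this

theorem phi_injective : Function.Injective (phi d) := by
  intro s s' h
  by_contra hne
  obtain ⟨n, hn⟩ := Function.ne_iff.1 hne
  have h0 : ph d s = ph d s' := join_injective h
  have h1 : cat d (n + 1) s = cat d (n + 1) s' := by
    rw [ext_eq_seg (ph_ext (n + 1) s), ext_eq_seg (ph_ext (n + 1) s'), h0, cat_length, cat_length]
  have h2 : cat d n s ++ nxt d n (cat d n) (s n) = cat d n s' ++ nxt d n (cat d n) (s' n) := h1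
  have h3 := (List.append_inj h2 (by rw [cat_length, cat_length])).2
  have h4 := (nxt_good (d := d) n).1.1
  cases h5 : s n <;> cases h6 : s' n <;> rw [h5, h6] at h3 hn
  · exact hn rfl
  · exact h4 h3
  · exact h4 h3.symm
  · exact hn rfl

theorem isOpen_agree {α : Type} [TopologicalSpace α] [DiscreteTopology α] (s : ℕ → α) (k : ℕ) :
    IsOpen {s' : ℕ → α | ∀ j < k, s' j = s j} := by
  have : {s' : ℕ → α | ∀ j < k, s' j = s j} =
      ⋂ j ∈ Finset.range k, (fun s' : ℕ → α => s' j) ⁻¹' {s j} := by ext; simp
  rw [this]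
  exact isOpen_biInter_finset fun j _ => (isOpen_discrete _).preimage (continuous_apply j)

theorem continuous_of_use {α β : Type} [TopologicalSpace α] [DiscreteTopology α]
    [TopologicalSpace β] (f : (ℕ → α) → β)
    (h : ∀ s, ∃ k, ∀ s', (∀ j < k, s' j = s j) → f s' = f s) : Continuous f := by
  refine ((IsLocallyConstant.iff_eventually_eq f).2 fun s => ?_).continuous
  obtain ⟨k, hk⟩ := h s
  filter_upwards [(isOpen_agree s k).mem_nhds (fun j _ => rfl)] with s' hs'
  exact hk s' hs'

theorem phi_continuous : Continuous (phi d) := by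
  refine continuous_pi fun k => continuous_of_use _ fun s => ⟨k + 1, fun s' hs' => ?_⟩
  unfold phi join
  by_cases h : k % 2 = 0
  · rw [if_pos h, if_pos h]
  · rw [if_neg h, if_neg h]
    show (cat d (k / 2 + 1) s').getD (k / 2) 0 = (cat d (k / 2 + 1) s).getD (k / 2) 0
    rw [cat_congr fun j hj => hs' j (by omega)]

/-- a program computes `b` from every join with `b` -/
theorem exists_half : ∃ c : OCode, ∀ b x : ℕ → ℕ, Computes c (join b x) b := by
  have h1 : Computable (fun n : ℕ => 2 * n) :=
    (Primrec.nat_mul.comp (Primrec.const 2) Primrec.id).to_comp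
  obtain ⟨c1, hc1⟩ := exists_code_partrec (Partrec.nat_iff.1 h1.partrec)
  refine ⟨.comp .oracle c1, fun b x n => ?_⟩
  show _ ∈ (c1.eval (fun i => Part.some (join b x i)) n).bind _
  rw [hc1, PFun.coe_val, Part.bind_some]
  show _ ∈ Part.some (join b x (2 * n))
  rw [Part.mem_some_iff]
  unfold join
  rw [if_pos (by omega), show 2 * n / 2 = n by omega]

end Pool.Agent.W932.UR
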